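import Mathlib

/-!
Residue classes and an orthogonality (Bessel) inequality for pairwise coprime moduli.
-/

namespace Pool.Agent.X6.Dens

open Finset

/-- the integers below `N` in the class of `β` modulo `W` -/
def cls (N W β : ℕ) : Finset ℕ := (range N).filter (fun x => x % W = β % W)

theorem mem_cls {N W β x : ℕ} : x ∈ cls N W β ↔ x < N ∧ x % W = β % W := by
  unfold cls
  rw [mem_filter, mem_range]

theorem card_cls {N W : ℕ} (β : ℕ) (hW : 0 < W) (h : W ∣ N) : (cls N W β).card * W = N := by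
  have h1 : (cls N W β).card = N.count (· ≡ β [MOD W]) := by
    rw [Nat.count_eq_card_filter_range]
    rfl
  rw [h1, Nat.count_modEq_card N hW, Nat.mod_eq_zero_of_dvd h, if_neg (by omega), add_zero,
    Nat.div_mul_cancel h]

theorem exists_crt {W m : ℕ} (hco : Nat.Coprime W m) (β b : ℕ) :
    ∃ a, ∀ x, (x % W = β % W ∧ x % m = b % m) ↔ x % (W * m) = a % (W * m) := by
  obtain ⟨a, ha1, ha2⟩ := Nat.chineseRemainder hco β b
  refine ⟨a, fun x => ?_⟩
  have h1 := Nat.modEq_and_modEq_iff_modEq_mul (a := x) (b := a) hco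
  constructor
  · rintro ⟨h2, h3⟩
    exact h1.1 ⟨Nat.ModEq.trans h2 ha1.symm, Nat.ModEq.trans h3 ha2.symm⟩
  · intro h2
    have h3 := h1.2 h2
    exact ⟨h3.1.trans ha1, h3.2.trans ha2⟩

theorem filter_cls {N W m : ℕ} (hco : Nat.Coprime W m) (β b : ℕ) :
    ∃ a, (cls N W β).filter (fun x => x % m = b % m) = cls N (W * m) a := by
  obtain ⟨a, ha⟩ := exists_crt hco β b
  refine ⟨a, ?_⟩
  ext x
  rw [mem_filter, mem_cls, mem_cls, ← ha x]
  tauto

theorem sum_one {N W m : ℕ} (β : ℕ) (hW : 0 < W) (hm : 0 < m) (hco : Nat.Coprime W m)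
    (h : W * m ∣ N) (f : ℕ → ℝ) :
    ∑ x ∈ cls N W β, f (x % m) = (N : ℝ) / (W * m) * ∑ b ∈ range m, f b := by
  rw [← Finset.sum_fiberwise_of_maps_to (s := cls N W β) (t := range m) (g := fun x => x % m)
    (fun x _ => mem_range.2 (Nat.mod_lt _ hm)), Finset.mul_sum]
  refine Finset.sum_congr rfl (fun b hb => ?_)
  have h1 : ∑ x ∈ (cls N W β).filter (fun x => x % m = b), f (x % m) =
      (((cls N W β).filter (fun x => x % m = b)).card : ℝ) * f b := by
    rw [← nsmul_eq_mul, ← Finset.sum_const]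
    refine Finset.sum_congr rfl (fun x hx => ?_)
    rw [(mem_filter.1 hx).2]
  rw [h1]
  congr 1
  obtain ⟨a, ha⟩ := filter_cls (N := N) hco β b
  have h2 : b % m = b := Nat.mod_eq_of_lt (mem_range.1 hb)
  rw [h2] at ha
  rw [ha]
  have h3 := card_cls a (Nat.mul_pos hW hm) h
  have h4 : (0 : ℝ) < (W : ℝ) * m := by
    have : 0 < W * m := Nat.mul_pos hW hm
    exact_mod_cast this
  rw [eq_div_iff h4.ne']
  exact_mod_cast h3

theorem sum_two {N W m m' : ℕ} (β : ℕ) (hW : 0 < W) (hm : 0 < m) (hm' : 0 < m')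
    (hco : Nat.Coprime W m) (hco' : Nat.Coprime W m') (hmm : Nat.Coprime m m')
    (h : W * m * m' ∣ N) (f g : ℕ → ℝ) :
    ∑ x ∈ cls N W β, f (x % m) * g (x % m') =
      (N : ℝ) / (W * m * m') * (∑ b ∈ range m, f b) * ∑ b ∈ range m', g b := by
  rw [← Finset.sum_fiberwise_of_maps_to (s := cls N W β) (t := range m) (g := fun x => x % m)
    (fun x _ => mem_range.2 (Nat.mod_lt _ hm))]
  have h1 : ∀ b ∈ range m, ∑ x ∈ (cls N W β).filter (fun x => x % m = b),
      f (x % m) * g (x % m') = (N : ℝ) / (W * m * m') * f b * ∑ b ∈ range m', g b := by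
    intro b hb
    obtain ⟨a, ha⟩ := filter_cls (N := N) hco β b
    have h2 : b % m = b := Nat.mod_eq_of_lt (mem_range.1 hb)
    rw [h2] at ha
    have h3 := sum_one (N := N) a (Nat.mul_pos hW hm) hm' (Nat.Coprime.mul_left hco' hmm) h g
    rw [← ha] at h3
    have h4 : ∑ x ∈ (cls N W β).filter (fun x => x % m = b), f (x % m) * g (x % m') =
        ∑ x ∈ (cls N W β).filter (fun x => x % m = b), f b * g (x % m') := by
      refine Finset.sum_congr rfl (fun x hx => ?_)
      rw [(mem_filter.1 hx).2]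
    rw [h4, ← Finset.mul_sum, h3]
    push_cast
    ring
  rw [Finset.sum_congr rfl h1, ← Finset.sum_mul, ← Finset.mul_sum]

/-- the relative density of `S` (in a class modulo `W`) -/
noncomputable def rh (S : Finset ℕ) (N W : ℕ) : ℝ := (S.card : ℝ) * W / N

/-- the relative density of `S` in the class `b` modulo `m` (and a class modulo `W`) -/
noncomputable def rb (S : Finset ℕ) (N W m b : ℕ) : ℝ :=
  ((S.filter (fun x => x % m = b)).card : ℝ) * (W * m) / N

/-- the variance of the densities modulo `m` -/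
noncomputable def vr (S : Finset ℕ) (N W m : ℕ) : ℝ :=
  (∑ b ∈ range m, (rb S N W m b - rh S N W) ^ 2) / m

theorem vr_nonneg (S : Finset ℕ) (N W m : ℕ) : 0 ≤ vr S N W m :=
  div_nonneg (Finset.sum_nonneg fun _ _ => sq_nonneg _) (Nat.cast_nonneg _)

theorem sum_rb (S : Finset ℕ) (N W m : ℕ) (hm : 0 < m) :
    ∑ b ∈ range m, rb S N W m b = m * rh S N W := by
  unfold rb rh
  rw [← Finset.sum_div, ← Finset.sum_mul]
  have h1 : ∑ b ∈ range m, ((S.filter (fun x => x % m = b)).card : ℝ) = (S.card : ℝ) := by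
    rw [← Nat.cast_sum]
    congr 1
    exact (Finset.card_eq_sum_card_fiberwise (f := fun x => x % m)
      (fun x _ => mem_range.2 (Nat.mod_lt _ hm))).symm
  rw [h1]
  ring

theorem bessel {N W β : ℕ} (hN : 0 < N) (hW : 0 < W) {S : Finset ℕ} (hS : S ⊆ cls N W β)
    (I : Finset ℕ) (m : ℕ → ℕ) (hm : ∀ i ∈ I, 0 < m i) (hWm : ∀ i ∈ I, Nat.Coprime W (m i))
    (hmm : ∀ i ∈ I, ∀ j ∈ I, i ≠ j → Nat.Coprime (m i) (m j))
    (hd : ∀ i ∈ I, ∀ j ∈ I, i ≠ j → W * m i * m j ∣ N) (hd1 : ∀ i ∈ I, W * m i ∣ N)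
    (hWN : W ∣ N) :
    ∑ i ∈ I, vr S N W (m i) ≤ 1 := by
  classical
  have hNr : (0 : ℝ) < N := by exact_mod_cast hN
  have hWr : (0 : ℝ) < W := by exact_mod_cast hW
  set ρ := rh S N W with hρ
  have hρ1 : ρ ≤ 1 := by
    rw [hρ, rh, div_le_one hNr]
    have h1 := Finset.card_le_card hS
    have h2 := card_cls β hW hWN
    have h3 : S.card * W ≤ N := by
      rw [← h2]
      exact Nat.mul_le_mul_right _ h1
    exact_mod_cast h3
  let u : ℕ → ℕ → ℝ := fun i x => rb S N W (m i) (x % m i) - ρ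
  let e : ℕ → ℝ := fun i => vr S N W (m i)
  have hmr : ∀ i ∈ I, (0 : ℝ) < m i := fun i hi => by exact_mod_cast hm i hi
  have hz : ∀ i ∈ I, ∑ b ∈ range (m i), (rb S N W (m i) b - ρ) = 0 := by
    intro i hi
    rw [Finset.sum_sub_distrib, sum_rb S N W (m i) (hm i hi), Finset.sum_const, card_range,
      nsmul_eq_mul, hρ]
    ring
  have hb : ∀ i ∈ I, ∑ x ∈ cls N W β, u i x ^ 2 = (N : ℝ) / W * e i := by
    intro i hi
    have h1 := sum_one (N := N) β hW (hm i hi) (hWm i hi) (hd1 i hi)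
      (fun b => (rb S N W (m i) b - ρ) ^ 2)
    simp only [u, e]
    rw [h1, vr]
    have := hmr i hi
    field_simp
    rfl
  have ha : ∀ i ∈ I, ∀ j ∈ I, i ≠ j → ∑ x ∈ cls N W β, u i x * u j x = 0 := by
    intro i hi j hj hij
    have h1 := sum_two (N := N) β hW (hm i hi) (hm j hj) (hWm i hi) (hWm j hj) (hmm i hi j hj hij)
      (hd i hi j hj hij) (fun b => rb S N W (m i) b - ρ) (fun b => rb S N W (m j) b - ρ)
    simp only [u]
    rw [h1, hz i hi]
    ring
  have hc : ∀ i ∈ I, ∑ x ∈ S, u i x = (N : ℝ) / W * e i := by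
    intro i hi
    have h1 : ∑ x ∈ S, u i x = ∑ b ∈ range (m i),
        ((S.filter (fun x => x % m i = b)).card : ℝ) * (rb S N W (m i) b - ρ) := by
      rw [← Finset.sum_fiberwise_of_maps_to (s := S) (t := range (m i)) (g := fun x => x % m i)
        (fun x _ => mem_range.2 (Nat.mod_lt _ (hm i hi)))]
      refine Finset.sum_congr rfl (fun b _ => ?_)
      rw [← nsmul_eq_mul, ← Finset.sum_const]
      refine Finset.sum_congr rfl (fun x hx => ?_)
      simp only [u]
      rw [(mem_filter.1 hx).2]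
    have h2 : ∀ b, ((S.filter (fun x => x % m i = b)).card : ℝ) =
        (N : ℝ) / (W * m i) * rb S N W (m i) b := by
      intro b
      unfold rb
      have := hmr i hi
      field_simp
    rw [h1]
    simp only [h2]
    have h3 : ∑ b ∈ range (m i), (N : ℝ) / (W * m i) * rb S N W (m i) b *
        (rb S N W (m i) b - ρ) = (N : ℝ) / (W * m i) *
          (∑ b ∈ range (m i), (rb S N W (m i) b - ρ) ^ 2 +
            ρ * ∑ b ∈ range (m i), (rb S N W (m i) b - ρ)) := by
      rw [Finset.mul_sum (s := range (m i)) (a := ρ), ← Finset.sum_add_distrib, Finset.mul_sum]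
      refine Finset.sum_congr rfl (fun b _ => ?_)
      ring
    rw [h3, hz i hi]
    simp only [e, vr]
    have := hmr i hi
    field_simp
    ring
  -- the square
  have hsq : 0 ≤ ∑ x ∈ cls N W β, ((if x ∈ S then (1 : ℝ) else 0) - ∑ i ∈ I, u i x) ^ 2 :=
    Finset.sum_nonneg fun _ _ => sq_nonneg _
  have hexp : ∑ x ∈ cls N W β, ((if x ∈ S then (1 : ℝ) else 0) - ∑ i ∈ I, u i x) ^ 2 =
      ∑ x ∈ cls N W β, (if x ∈ S then (1 : ℝ) else 0) -
        2 * ∑ x ∈ cls N W β, (if x ∈ S then ∑ i ∈ I, u i x else 0) +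
        ∑ x ∈ cls N W β, (∑ i ∈ I, u i x) ^ 2 := by
    rw [Finset.mul_sum, ← Finset.sum_sub_distrib, ← Finset.sum_add_distrib]
    refine Finset.sum_congr rfl (fun x _ => ?_)
    split_ifs
    · ring
    · ring
  have h1 : ∑ x ∈ cls N W β, (if x ∈ S then (1 : ℝ) else 0) = S.card := by
    rw [← Finset.sum_filter, Finset.sum_const, nsmul_eq_mul, mul_one]
    congr 2
    ext x
    rw [mem_filter]
    exact ⟨fun h => h.2, fun h => ⟨hS h, h⟩⟩
  have h2 : ∑ x ∈ cls N W β, (if x ∈ S then ∑ i ∈ I, u i x else 0) = (N : ℝ) / W * ∑ i ∈ I, e i := by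
    rw [← Finset.sum_filter]
    have : (cls N W β).filter (fun x => x ∈ S) = S := by
      ext x
      rw [mem_filter]
      exact ⟨fun h => h.2, fun h => ⟨hS h, h⟩⟩
    rw [this, Finset.sum_comm, Finset.mul_sum]
    exact Finset.sum_congr rfl hc
  have h3 : ∑ x ∈ cls N W β, (∑ i ∈ I, u i x) ^ 2 = (N : ℝ) / W * ∑ i ∈ I, e i := by
    simp only [pow_two, Finset.sum_mul_sum]
    rw [Finset.sum_comm, Finset.mul_sum]
    refine Finset.sum_congr rfl (fun i hi => ?_)
    rw [Finset.sum_comm, Finset.sum_eq_single_of_mem i hi]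
    · rw [← hb i hi]
      exact Finset.sum_congr rfl (fun x _ => by ring)
    · intro j hj hji
      exact ha i hi j hj hji.symm
  rw [hexp, h1, h2, h3] at hsq
  have h4 : (N : ℝ) / W * ∑ i ∈ I, e i ≤ S.card := by linarith
  have h5 : (S.card : ℝ) ≤ (N : ℝ) / W := by
    rw [hρ, rh, div_le_one hNr] at hρ1
    rw [le_div_iff₀ hWr]
    exact hρ1
  have h6 : (0 : ℝ) < (N : ℝ) / W := by positivity
  have h7 : (N : ℝ) / W * ∑ i ∈ I, e i ≤ (N : ℝ) / W * 1 := by linarith
  exact le_of_mul_le_mul_left h7 h6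

end Pool.Agent.X6.Dens
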