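import Mathlib
import Pool.Agent.X6.Dens.A1

/-!
Selection of a prime with respect to which finitely many sets are well distributed.
-/

namespace Pool.Agent.X6.Dens

open Finset

/-- selection of a prime -/
theorem select {κ : Type} [Fintype κ] {N h : ℕ} (hN : 0 < N) (P : Finset ℕ)
    (hP : ∀ p ∈ P, p.Prime) (S : κ → Finset ℕ) (W β : κ → ℕ) (hW : ∀ k, 0 < W k)
    (hS : ∀ k, S k ⊆ cls N (W k) (β k)) (hco : ∀ k, ∀ p ∈ P, Nat.Coprime (W k) p)
    (hd : ∀ k, W k * ∏ p ∈ P, p ^ h ∣ N) (η : ℝ) (hη : 0 < η)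
    (hsum : (Fintype.card κ + 1) / η ≤ ∑ p ∈ P, (1 : ℝ) / p) :
    ∃ p ∈ P, ∀ k, (p : ℝ) * vr (S k) N (W k) (p ^ h) ≤ η := by
  classical
  by_contra hcon
  push Not at hcon
  have hbes : ∀ k, ∑ p ∈ P, vr (S k) N (W k) (p ^ h) ≤ 1 := by
    intro k
    refine bessel hN (hW k) (hS k) P (fun p => p ^ h) ?_ ?_ ?_ ?_ ?_ ?_
    · intro p hp
      exact pow_pos (hP p hp).pos h
    · intro p hp
      exact Nat.Coprime.pow_right h (hco k p hp)
    · intro p hp q hq hpq
      exact Nat.Coprime.pow h h ((Nat.coprime_primes (hP p hp) (hP q hq)).2 hpq)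
    · intro p hp q hq hpq
      refine dvd_trans ?_ (hd k)
      rw [mul_assoc]
      refine Nat.mul_dvd_mul_left _ ?_
      have e0 : p ^ h * q ^ h = ∏ x ∈ ({p, q} : Finset ℕ), x ^ h :=
        (Finset.prod_pair (f := fun x => x ^ h) hpq).symm
      rw [e0]
      exact Finset.prod_dvd_prod_of_subset _ _ _ (by
        intro x hx
        rw [Finset.mem_insert, Finset.mem_singleton] at hx
        rcases hx with rfl | rfl
        · exact hp
        · exact hq)
    · intro p hp
      refine dvd_trans (Nat.mul_dvd_mul_left _ ?_) (hd k)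
      exact Finset.dvd_prod_of_mem _ hp
    · exact dvd_trans (Dvd.intro _ rfl) (hd k)
  have h1 : ∑ p ∈ P, ∑ k : κ, vr (S k) N (W k) (p ^ h) ≤ Fintype.card κ := by
    rw [Finset.sum_comm]
    calc ∑ k : κ, ∑ p ∈ P, vr (S k) N (W k) (p ^ h) ≤ ∑ _k : κ, (1 : ℝ) :=
          Finset.sum_le_sum (fun k _ => hbes k)
      _ = Fintype.card κ := by simp
  have h2 : ∑ p ∈ P, η * (1 / (p : ℝ)) ≤ ∑ p ∈ P, ∑ k : κ, vr (S k) N (W k) (p ^ h) := by
    refine Finset.sum_le_sum (fun p hp => ?_)
    obtain ⟨k, hk⟩ := hcon p hp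
    have hp0 : (0 : ℝ) < p := by exact_mod_cast (hP p hp).pos
    have h3 : η * (1 / (p : ℝ)) ≤ vr (S k) N (W k) (p ^ h) := by
      rw [mul_one_div, div_le_iff₀ hp0, mul_comm]
      exact hk.le
    exact h3.trans (Finset.single_le_sum
      (f := fun k => vr (S k) N (W k) (p ^ h)) (fun k _ => vr_nonneg _ _ _ _) (Finset.mem_univ k))
  rw [← Finset.mul_sum] at h2
  have h4 : (Fintype.card κ + 1 : ℝ) ≤ η * ∑ p ∈ P, (1 : ℝ) / p := by
    rw [div_le_iff₀ hη, mul_comm] at hsum
    exact hsum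
  linarith

/-- number of multiples of `p` below `p ^ h` -/
theorem card_mult {p h : ℕ} (hp : 0 < p) (hh : 1 ≤ h) :
    ((range (p ^ h)).filter (fun b => p ∣ b)).card = p ^ (h - 1) := by
  have h1 := card_cls (N := p ^ h) (W := p) 0 hp (dvd_pow_self p (by omega))
  have h2 : cls (p ^ h) p 0 = (range (p ^ h)).filter (fun b => p ∣ b) := by
    ext x
    rw [mem_cls, mem_filter, mem_range, Nat.zero_mod, Nat.dvd_iff_mod_eq_zero]
  rw [h2] at h1
  have h3 : p ^ h = p ^ (h - 1) * p := by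
    rw [← pow_succ, Nat.sub_add_cancel hh]
  rw [h3] at h1
  have := Nat.eq_of_mul_eq_mul_right hp h1
  rw [h3]
  exact this

/-- the multiples of `p` -/
theorem zero_part {S : Finset ℕ} {N W p h : ℕ} (hN : 0 < N) (hp : p.Prime) (hh : 1 ≤ h)
    {η : ℝ} (hη : (p : ℝ) * vr S N W (p ^ h) ≤ η ^ 2) (hη0 : 0 ≤ η) :
    rh S N W - η ≤ rh (S.filter (fun x => p ∣ x)) N (W * p) := by
  classical
  have hNr : (0 : ℝ) < N := by exact_mod_cast hN
  have hp0 : (0 : ℝ) < p := by exact_mod_cast hp.pos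
  set q := p ^ h with hq
  have hq0 : 0 < q := pow_pos hp.pos h
  have hqr : (0 : ℝ) < q := by exact_mod_cast hq0
  set M := (range q).filter (fun b => p ∣ b) with hM
  have hMc : (M.card : ℝ) * p = q := by
    rw [hM, hq, card_mult hp.pos hh]
    have h3 : p ^ h = p ^ (h - 1) * p := by
      rw [← pow_succ, Nat.sub_add_cancel hh]
    exact_mod_cast h3.symm
  have hM0 : (0 : ℝ) < M.card := by
    by_contra hcon
    push Not at hcon
    nlinarith
  have hpq : p ∣ q := dvd_pow_self p (by omega)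
  -- sum of the densities
  have h1 : ∑ b ∈ M, rb S N W q b = M.card * rh (S.filter (fun x => p ∣ x)) N (W * p) := by
    have e1 : ∑ b ∈ M, ((S.filter (fun x => x % q = b)).card : ℝ) =
        ((S.filter (fun x => p ∣ x)).card : ℝ) := by
      rw [← Nat.cast_sum]
      congr 1
      rw [Finset.card_eq_sum_card_fiberwise (f := fun x => x % q) (s := S.filter (fun x => p ∣ x))
        (t := M)]
      · refine Finset.sum_congr rfl (fun b hb => ?_)
        congr 1
        ext x
        rw [mem_filter, mem_filter, mem_filter]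
        constructor
        · rintro ⟨hx1, hx2⟩
          refine ⟨⟨hx1, ?_⟩, hx2⟩
          have hb' := (mem_filter.1 hb).2
          rw [← hx2] at hb'
          exact (Nat.dvd_mod_iff hpq).1 hb'
        · rintro ⟨⟨hx1, -⟩, hx3⟩
          exact ⟨hx1, hx3⟩
      · intro x hx
        rw [Finset.mem_coe, mem_filter] at hx
        rw [Finset.mem_coe, hM, mem_filter, mem_range]
        exact ⟨Nat.mod_lt _ hq0, (Nat.dvd_mod_iff hpq).2 hx.2⟩
    unfold rb rh
    rw [← Finset.sum_div, ← Finset.sum_mul, e1]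
    push_cast
    rw [← hMc]
    ring
  have h2 : ∑ b ∈ M, (rb S N W q b - rh S N W) =
      M.card * (rh (S.filter (fun x => p ∣ x)) N (W * p) - rh S N W) := by
    rw [Finset.sum_sub_distrib, h1, Finset.sum_const, nsmul_eq_mul]
    ring
  have h3 := sq_sum_le_card_mul_sum_sq (s := M) (f := fun b => rb S N W q b - rh S N W)
  have h4 : ∑ b ∈ M, (rb S N W q b - rh S N W) ^ 2 ≤ q * vr S N W q := by
    have e1 : (q : ℝ) * vr S N W q = ∑ b ∈ range q, (rb S N W q b - rh S N W) ^ 2 := by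
      unfold vr
      rw [mul_div_assoc', mul_div_cancel_left₀ _ hqr.ne']
    rw [e1]
    exact Finset.sum_le_sum_of_subset_of_nonneg (Finset.filter_subset _ _)
      (fun _ _ _ => sq_nonneg _)
  rw [h2] at h3
  set D := rh (S.filter (fun x => p ∣ x)) N (W * p) - rh S N W with hD
  have h5 : D ^ 2 ≤ η ^ 2 := by
    have e1 : (M.card : ℝ) * (M.card * D ^ 2) ≤ M.card * (M.card * η ^ 2) := by
      calc (M.card : ℝ) * (M.card * D ^ 2) = (M.card * D) ^ 2 := by ring
        _ ≤ M.card * ∑ b ∈ M, (rb S N W q b - rh S N W) ^ 2 := h3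
        _ ≤ M.card * (q * vr S N W q) := mul_le_mul_of_nonneg_left h4 hM0.le
        _ = M.card * (M.card * (p * vr S N W q)) := by
            rw [← hMc]
            ring
        _ ≤ M.card * (M.card * η ^ 2) := by
            apply mul_le_mul_of_nonneg_left _ hM0.le
            exact mul_le_mul_of_nonneg_left hη hM0.le
    exact le_of_mul_le_mul_left (le_of_mul_le_mul_left e1 hM0) hM0
  have h6 := abs_le_of_sq_le_sq h5 hη0
  linarith [(abs_le.1 h6).1]

/-- the exceptional classes -/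
theorem bad_classes {S : Finset ℕ} {N W q : ℕ} (hq : 0 < q) {t : ℝ} (ht : 0 < t) :
    (((range q).filter (fun b => rb S N W q b < rh S N W - t)).card : ℝ) * t ^ 2 ≤
      q * vr S N W q := by
  have hqr : (0 : ℝ) < q := by exact_mod_cast hq
  have e1 : (q : ℝ) * vr S N W q = ∑ b ∈ range q, (rb S N W q b - rh S N W) ^ 2 := by
    unfold vr
    rw [mul_div_assoc', mul_div_cancel_left₀ _ hqr.ne']
  rw [e1, ← nsmul_eq_mul]
  refine (Finset.card_nsmul_le_sum _ (fun b => (rb S N W q b - rh S N W) ^ 2) _ ?_).trans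
    (Finset.sum_le_sum_of_subset_of_nonneg (Finset.filter_subset _ _) (fun _ _ _ => sq_nonneg _))
  intro b hb
  have h1 := (mem_filter.1 hb).2
  nlinarith

end Pool.Agent.X6.Dens
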