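import Mathlib
import Pool.Agent.X6.NearPow1

/-!
Unit solutions of `x_1^h + ... + x_h^h ≡ 0 (mod p^h)`.
-/

namespace Pool.Agent.X6.Dens

open Finset

/-- unit solutions -/
def V (h p : ℕ) : Finset (Fin h → ℕ) :=
  (Fintype.piFinset (fun _ => range (p ^ h))).filter
    (fun b => (∀ i, ¬ p ∣ b i) ∧ p ^ h ∣ ∑ i, b i ^ h)

theorem mem_V {h p : ℕ} {b : Fin h → ℕ} :
    b ∈ V h p ↔ (∀ i, b i < p ^ h) ∧ (∀ i, ¬ p ∣ b i) ∧ p ^ h ∣ ∑ i, b i ^ h := by
  unfold V
  rw [mem_filter, Fintype.mem_piFinset]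
  simp only [mem_range]

theorem card_units_ge {p L : ℕ} (hp : p.Prime) (hL : 1 ≤ L) [NeZero (p ^ L)] :
    p ^ L ≤ 2 * Fintype.card (ZMod (p ^ L))ˣ := by
  rw [ZMod.card_units_eq_totient, Nat.totient_prime_pow hp (by omega)]
  have e1 : p ^ L = p ^ (L - 1) * p := by
    rw [← pow_succ, Nat.sub_add_cancel hL]
  rw [e1]
  have : p ≤ 2 * (p - 1) := by
    have := hp.two_le
    omega
  calc p ^ (L - 1) * p ≤ p ^ (L - 1) * (2 * (p - 1)) := Nat.mul_le_mul_left _ this
    _ = 2 * (p ^ (L - 1) * (p - 1)) := by ring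

theorem val_unit {p L : ℕ} (hp : p.Prime) (hL : 1 ≤ L) (u : (ZMod (p ^ L))ˣ) :
    ¬ p ∣ (u : ZMod (p ^ L)).val := by
  intro hdvd
  have hcop := ZMod.val_coe_unit_coprime u
  have h2 : p ∣ p ^ L := dvd_pow_self p (by omega)
  have h3 := Nat.dvd_gcd hdvd h2
  rw [Nat.Coprime] at hcop
  rw [hcop] at h3
  exact hp.one_lt.ne' (Nat.dvd_one.1 h3)

theorem V_even {k p : ℕ} (hk : 1 ≤ k) (hp : p.Prime) (hp2 : p ≠ 2)
    (hmod : 2 * (k + k) ∣ p - 1) :
    (p ^ (k + k)) ^ (k + k - 1) ≤ 2 ^ (k + k) * (V (k + k) p).card := by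
  classical
  set L := k + k with hLdef
  have hL : 1 ≤ L := by omega
  have : NeZero (p ^ L) := ⟨pow_ne_zero _ hp.ne_zero⟩
  have : Fact (1 < p ^ L) := ⟨Nat.one_lt_pow (by omega) hp.one_lt⟩
  obtain ⟨ι, hι⟩ := NearPow.exists_iota (h := k + k) (by omega) hp hp2 hmod hL
  let f : (Fin k → (ZMod (p ^ L))ˣ) → (ZMod (p ^ L)) :=
    fun x => ∑ i, ((x i : (ZMod (p ^ L))ˣ) : (ZMod (p ^ L))) ^ (k + k)
  set P : Finset ((Fin k → (ZMod (p ^ L))ˣ) × (Fin k → (ZMod (p ^ L))ˣ)) :=
    Finset.univ.filter (fun z => f z.1 = f z.2) with hP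
  have hcardU : p ^ L ≤ 2 * Fintype.card (ZMod (p ^ L))ˣ := card_units_ge hp hL
  have hcardR : Fintype.card (ZMod (p ^ L)) = p ^ L := ZMod.card _
  -- Cauchy and Schwarz
  have hcs : (Fintype.card (ZMod (p ^ L))ˣ) ^ (k + k) ≤ p ^ L * P.card := by
    have e1 : ∑ r : (ZMod (p ^ L)), (Finset.univ.filter (fun x => f x = r)).card =
        (Fintype.card (ZMod (p ^ L))ˣ) ^ k := by
      rw [← Finset.card_eq_sum_card_fiberwise (f := f) (s := Finset.univ) (t := Finset.univ)
        (fun x _ => Finset.mem_univ _), Finset.card_univ, Fintype.card_fun, Fintype.card_fin]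
    have e2 : ∑ r : (ZMod (p ^ L)), (Finset.univ.filter (fun x => f x = r)).card ^ 2 = P.card := by
      rw [Finset.card_eq_sum_card_fiberwise
        (f := fun z : (Fin k → (ZMod (p ^ L))ˣ) × (Fin k → (ZMod (p ^ L))ˣ) => f z.1)
        (s := P) (t := Finset.univ) (fun x _ => Finset.mem_univ _)]
      refine Finset.sum_congr rfl fun r _ => ?_
      rw [sq, ← Finset.card_product]
      congr 1
      ext ⟨x, y⟩
      simp only [Finset.mem_product, Finset.mem_filter, Finset.mem_univ, true_and, hP]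
      constructor
      · rintro ⟨h1, h2⟩
        exact ⟨h1.trans h2.symm, h1⟩
      · rintro ⟨h1, h2⟩
        exact ⟨h2, h1.symm.trans h2⟩
    have e3 := sq_sum_le_card_mul_sum_sq (s := (Finset.univ : Finset (ZMod (p ^ L))))
      (f := fun r => (Finset.univ.filter (fun x => f x = r)).card)
    rw [e1, e2, Finset.card_univ, hcardR] at e3
    calc (Fintype.card (ZMod (p ^ L))ˣ) ^ (k + k) = ((Fintype.card (ZMod (p ^ L))ˣ) ^ k) ^ 2 := by
          rw [pow_add, sq]
      _ ≤ _ := e3
  -- injection into the unit solutions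
  have hinj : P.card ≤ (V (k + k) p).card := by
    refine Finset.card_le_card_of_injOn (fun z i => ((Fin.append
      (fun i => ((z.1 i : (ZMod (p ^ L))ˣ) : (ZMod (p ^ L))))
      (fun i => (((ι * z.2 i : (ZMod (p ^ L))ˣ)) : (ZMod (p ^ L)))) i : (ZMod (p ^ L)))).val) ?_ ?_
    · rintro ⟨x, y⟩ hz
      rw [Finset.mem_coe, hP, Finset.mem_filter] at hz
      have hz := hz.2
      simp only at hz
      rw [Finset.mem_coe, mem_V]
      refine ⟨fun i => ZMod.val_lt _, fun i => ?_, ?_⟩
      · refine Fin.addCases (fun i => ?_) (fun i => ?_) i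
        · simp only [Fin.append_left]
          exact val_unit hp hL _
        · simp only [Fin.append_right]
          exact val_unit hp hL _
      · rw [← ZMod.natCast_eq_zero_iff]
        push_cast
        simp only [ZMod.natCast_val, ZMod.cast_id', id]
        rw [Fin.sum_univ_add]
        simp only [Fin.append_left, Fin.append_right, Units.val_mul]
        have e1 : ∀ i, (((ι : (ZMod (p ^ L))ˣ) : (ZMod (p ^ L))) *
            ((y i : (ZMod (p ^ L))ˣ) : (ZMod (p ^ L)))) ^ (k + k) =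
            - ((y i : (ZMod (p ^ L))ˣ) : (ZMod (p ^ L))) ^ (k + k) := by
          intro i
          rw [mul_pow]
          have : ((ι : (ZMod (p ^ L))ˣ) : (ZMod (p ^ L))) ^ (k + k) = -1 := by
            have := congrArg (fun u : (ZMod (p ^ L))ˣ => (u : (ZMod (p ^ L)))) hι
            simpa using this
          rw [this]
          ring
        simp only [e1]
        rw [Finset.sum_neg_distrib]
        have : ∑ i, ((x i : (ZMod (p ^ L))ˣ) : (ZMod (p ^ L))) ^ (k + k) =
            ∑ i, ((y i : (ZMod (p ^ L))ˣ) : (ZMod (p ^ L))) ^ (k + k) := hz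
        rw [this]
        ring
    · rintro ⟨x, y⟩ _ ⟨x', y'⟩ _ hh
      have key : ∀ i, (Fin.append (fun i => ((x i : (ZMod (p ^ L))ˣ) : (ZMod (p ^ L))))
          (fun i => (((ι * y i : (ZMod (p ^ L))ˣ)) : (ZMod (p ^ L)))) i : (ZMod (p ^ L))) =
          (Fin.append (fun i => ((x' i : (ZMod (p ^ L))ˣ) : (ZMod (p ^ L))))
          (fun i => (((ι * y' i : (ZMod (p ^ L))ˣ)) : (ZMod (p ^ L)))) i : (ZMod (p ^ L))) := by
        intro i
        exact ZMod.val_injective _ (congrFun hh i)
      refine Prod.ext (funext fun i => ?_) (funext fun i => ?_)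
      · have := key (Fin.castAdd k i)
        simp only [Fin.append_left] at this
        exact Units.ext this
      · have := key (Fin.natAdd k i)
        simp only [Fin.append_right] at this
        exact mul_left_cancel (Units.ext this)
  have hfin : (p ^ L) ^ (k + k) ≤ 2 ^ (k + k) * (p ^ L * (V (k + k) p).card) := by
    calc (p ^ L) ^ (k + k) ≤ (2 * Fintype.card (ZMod (p ^ L))ˣ) ^ (k + k) :=
          Nat.pow_le_pow_left hcardU _
      _ = 2 ^ (k + k) * (Fintype.card (ZMod (p ^ L))ˣ) ^ (k + k) := by rw [mul_pow]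
      _ ≤ 2 ^ (k + k) * (p ^ L * P.card) := Nat.mul_le_mul_left _ hcs
      _ ≤ _ := Nat.mul_le_mul_left _ (Nat.mul_le_mul_left _ hinj)
  have e1 : (p ^ L) ^ (k + k) = p ^ L * (p ^ L) ^ (k + k - 1) := by
    rw [← pow_succ', Nat.sub_add_cancel (by omega)]
  rw [e1] at hfin
  have hpos : 0 < p ^ L := pow_pos hp.pos _
  refine Nat.le_of_mul_le_mul_left ?_ hpos
  calc p ^ L * (p ^ L) ^ (k + k - 1) ≤ _ := hfin
    _ = _ := by ring

/-- units modulo prime powers -/
theorem isUnit_iff_cast {p L : ℕ} (hp : p.Prime) (hL : 1 ≤ L) (x : ZMod (p ^ L)) :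
    IsUnit x ↔ ZMod.castHom (dvd_pow_self p (by omega : L ≠ 0)) (ZMod p) x ≠ 0 := by
  have : NeZero (p ^ L) := ⟨pow_ne_zero _ hp.ne_zero⟩
  obtain ⟨n, rfl⟩ := ZMod.natCast_zmod_surjective x
  rw [map_natCast, ZMod.isUnit_iff_coprime, Ne, ZMod.natCast_eq_zero_iff,
    Nat.coprime_pow_right_iff (by omega), Nat.coprime_comm, Nat.Prime.coprime_iff_not_dvd hp]

theorem V_odd {k p : ℕ} (hp : p.Prime) (hp2 : p ≠ 2)
    (hcop : Nat.Coprime (k + 2) (p - 1)) (hcop' : Nat.Coprime (k + 2) p) :
    (p ^ (k + 2)) ^ (k + 2 - 1) ≤ 2 ^ (k + 2) * (V (k + 2) p).card := by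
  classical
  set L := k + 2 with hLdef
  have hL : 1 ≤ L := by omega
  have : Fact p.Prime := ⟨hp⟩
  have : NeZero (p ^ L) := ⟨pow_ne_zero _ hp.ne_zero⟩
  have : Fact (1 < p ^ L) := ⟨Nat.one_lt_pow (by omega) hp.one_lt⟩
  have hcardU : p ^ L ≤ 2 * Fintype.card (ZMod (p ^ L))ˣ := card_units_ge hp hL
  have hcU : (Nat.card (ZMod (p ^ L))ˣ).Coprime L := by
    rw [Nat.card_eq_fintype_card, ZMod.card_units_eq_totient,
      Nat.totient_prime_pow hp (by omega)]
    exact Nat.Coprime.mul_left (Nat.Coprime.pow_left _ hcop'.symm) hcop.symm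
  let π := ZMod.castHom (dvd_pow_self p (by omega : L ≠ 0)) (ZMod p)
  -- two is not an `h`-th root of unity
  have h2p : (2 : ZMod p) ^ L ≠ 1 := by
    intro hcon
    have h2 : (2 : ZMod p) ≠ 0 := by
      intro h0
      have : ((2 : ℕ) : ZMod p) = 0 := by exact_mod_cast h0
      rw [ZMod.natCast_eq_zero_iff] at this
      exact hp2 ((Nat.prime_dvd_prime_iff_eq hp Nat.prime_two).1 this)
    have h3 : orderOf (2 : ZMod p) ∣ L := orderOf_dvd_of_pow_eq_one hcon
    have h4 : orderOf (2 : ZMod p) ∣ p - 1 := orderOf_dvd_of_pow_eq_one (ZMod.pow_card_sub_one_eq_one h2)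
    have h5 := Nat.dvd_gcd h3 h4
    rw [Nat.Coprime] at hcop
    rw [hcop, Nat.dvd_one, orderOf_eq_one_iff] at h5
    have h6 : (1 : ZMod p) = 0 := by linear_combination h5
    exact one_ne_zero h6
  have h2u : Nat.Coprime 2 (p ^ L) :=
    Nat.Coprime.pow_right L ((Nat.coprime_primes Nat.prime_two hp).2 (Ne.symm hp2))
  let two : (ZMod (p ^ L))ˣ := ZMod.unitOfCoprime 2 h2u
  let f : (Fin (k + 1) → (ZMod (p ^ L))ˣ) → (ZMod (p ^ L)) :=
    fun x => ∑ i, ((x i : (ZMod (p ^ L))ˣ) : (ZMod (p ^ L))) ^ L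
  set T : Finset (Fin (k + 1) → (ZMod (p ^ L))ˣ) := Finset.univ.filter (fun u => IsUnit (f u)) with hT
  have hTc : (Finset.univ.filter (fun u => ¬ IsUnit (f u))).card ≤ T.card := by
    refine Finset.card_le_card_of_injOn (fun u => Function.update u 0 (two * u 0)) ?_ ?_
    · intro u hu
      rw [Finset.mem_coe, mem_filter] at hu
      rw [Finset.mem_coe, hT, mem_filter]
      refine ⟨mem_univ _, ?_⟩
      have hu2 := hu.2
      rw [isUnit_iff_cast hp hL, not_not] at hu2
      have e1 : f (Function.update u 0 (two * u 0)) =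
          f u + ((2 : ZMod (p ^ L)) ^ L - 1) * ((u 0 : (ZMod (p ^ L))ˣ) : ZMod (p ^ L)) ^ L := by
        simp only [f]
        rw [Fin.sum_univ_succ, Fin.sum_univ_succ (fun i => ((u i : (ZMod (p ^ L))ˣ) : ZMod (p ^ L)) ^ L)]
        rw [Function.update_self]
        have e2 : ∀ i : Fin k, Function.update u 0 (two * u 0) i.succ = u i.succ := by
          intro i
          rw [Function.update_of_ne (Fin.succ_ne_zero i)]
        simp only [e2, Units.val_mul, mul_pow]
        have e3 : (two : ZMod (p ^ L)) = 2 := by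
          simp [two, ZMod.coe_unitOfCoprime]
        rw [e3]
        ring
      rw [isUnit_iff_cast hp hL, e1, map_add, hu2, zero_add, map_mul, map_sub, map_pow, map_pow,
        map_one, map_ofNat]
      refine mul_ne_zero (sub_ne_zero.2 h2p) (pow_ne_zero _ ?_)
      exact (isUnit_iff_cast hp hL _).1 (u 0).isUnit
    · intro u _ v _ huv
      simp only at huv
      funext i
      refine Fin.cases ?_ (fun j => ?_) i
      · have := congrFun huv 0
        rw [Function.update_self, Function.update_self] at this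
        exact mul_left_cancel this
      · have := congrFun huv j.succ
        rw [Function.update_of_ne (Fin.succ_ne_zero j), Function.update_of_ne (Fin.succ_ne_zero j)]
          at this
        exact this
  have hTcard : (Fintype.card (ZMod (p ^ L))ˣ) ^ (k + 1) ≤ 2 * T.card := by
    have e1 : (Fintype.card (ZMod (p ^ L))ˣ) ^ (k + 1) =
        (Finset.univ : Finset (Fin (k + 1) → (ZMod (p ^ L))ˣ)).card := by
      rw [Finset.card_univ, Fintype.card_fun, Fintype.card_fin]
    have e2 := Finset.card_filter_add_card_filter_not (s := Finset.univ)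
      (fun u : Fin (k + 1) → (ZMod (p ^ L))ˣ => IsUnit (f u))
    rw [e1, ← e2]
    calc _ ≤ T.card + T.card := Nat.add_le_add_left hTc _
      _ = 2 * T.card := by ring
  have hz : ∀ u : Fin (k + 1) → (ZMod (p ^ L))ˣ, ∃ z : (ZMod (p ^ L))ˣ, IsUnit (f u) →
      (z : ZMod (p ^ L)) ^ L = - f u := by
    intro u
    by_cases hu : IsUnit (f u)
    · obtain ⟨w, hw⟩ := hu
      obtain ⟨v, hv⟩ := (powCoprime hcU).surjective (- w)
      refine ⟨v, fun _ => ?_⟩
      have h1 : v ^ L = - w := hv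
      have h2 := congrArg (fun u : (ZMod (p ^ L))ˣ => (u : ZMod (p ^ L))) h1
      simp only [Units.val_pow_eq_pow_val, Units.val_neg] at h2
      rw [h2, hw]
    · exact ⟨1, fun h => absurd h hu⟩
  choose z hz using hz
  have hinj : T.card ≤ (V (k + 2) p).card := by
    refine Finset.card_le_card_of_injOn (fun u i =>
      (((Fin.cons (z u) u : Fin (k + 2) → (ZMod (p ^ L))ˣ) i : (ZMod (p ^ L))ˣ) :
        ZMod (p ^ L)).val) ?_ ?_
    · intro u hu
      rw [Finset.mem_coe, hT, mem_filter] at hu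
      rw [Finset.mem_coe, mem_V]
      refine ⟨fun i => ZMod.val_lt _, fun i => val_unit hp hL _, ?_⟩
      rw [← ZMod.natCast_eq_zero_iff]
      push_cast
      simp only [ZMod.natCast_val, ZMod.cast_id', id]
      rw [Fin.sum_univ_succ]
      simp only [Fin.cons_zero, Fin.cons_succ]
      have h5 : ((z u : (ZMod (p ^ L))ˣ) : ZMod (p ^ L)) ^ (k + 2) = - f u := hz u hu.2
      rw [h5]
      simp only [f]
      exact neg_add_cancel _
    · intro u _ v _ huv
      simp only at huv
      funext i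
      have := congrFun huv i.succ
      simp only [Fin.cons_succ] at this
      exact Units.ext (ZMod.val_injective _ this)
  calc (p ^ L) ^ (L - 1) ≤ (2 * Fintype.card (ZMod (p ^ L))ˣ) ^ (L - 1) :=
        Nat.pow_le_pow_left hcardU _
    _ = 2 ^ (k + 1) * (Fintype.card (ZMod (p ^ L))ˣ) ^ (k + 1) := by
        rw [show L - 1 = k + 1 from rfl, mul_pow]
    _ ≤ 2 ^ (k + 1) * (2 * T.card) := Nat.mul_le_mul_left _ hTcard
    _ = 2 ^ (k + 2) * T.card := by ring
    _ ≤ _ := Nat.mul_le_mul_left _ hinj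

/-- the number of `h`-th roots -/
theorem card_roots {p L h : ℕ} (hp : p.Prime) (hp2 : p ≠ 2) (hL : 1 ≤ L) (hh : 1 ≤ h)
    (s : ZMod (p ^ L)) :
    ((range (p ^ L)).filter (fun t => ¬ p ∣ t ∧ (t : ZMod (p ^ L)) ^ h = s)).card ≤ h := by
  classical
  have : NeZero (p ^ L) := ⟨pow_ne_zero _ hp.ne_zero⟩
  have : IsCyclic (ZMod (p ^ L))ˣ := ZMod.isCyclic_units_of_prime_pow p hp hp2 L
  set F := (range (p ^ L)).filter (fun t => ¬ p ∣ t ∧ (t : ZMod (p ^ L)) ^ h = s) with hF
  rcases F.eq_empty_or_nonempty with h0 | ⟨t₀, ht₀⟩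
  · rw [h0]
    simp
  · have hco : ∀ t ∈ F, Nat.Coprime t (p ^ L) := by
      intro t ht
      rw [hF, mem_filter] at ht
      exact Nat.Coprime.pow_right L ((Nat.Prime.coprime_iff_not_dvd hp).2 ht.2.1).symm
    let g : ℕ → (ZMod (p ^ L))ˣ := fun t =>
      if ht : Nat.Coprime t (p ^ L) then ZMod.unitOfCoprime t ht / ZMod.unitOfCoprime t₀ (hco t₀ ht₀)
      else 1
    have h1 : F.card ≤ (Finset.univ.filter (fun u : (ZMod (p ^ L))ˣ => u ^ h = 1)).card := by
      refine Finset.card_le_card_of_injOn g ?_ ?_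
      · intro t ht
        rw [Finset.mem_coe] at ht
        rw [Finset.mem_coe, mem_filter]
        refine ⟨mem_univ _, ?_⟩
        simp only [g]
        rw [dif_pos (hco t ht), div_pow, div_eq_one]
        apply Units.ext
        push_cast
        rw [ZMod.coe_unitOfCoprime, ZMod.coe_unitOfCoprime]
        rw [hF, mem_filter] at ht ht₀
        rw [ht.2.2, ht₀.2.2]
      · intro t ht t' ht' htt
        rw [Finset.mem_coe] at ht ht'
        simp only [g] at htt
        rw [dif_pos (hco t ht), dif_pos (hco t' ht')] at htt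
        have h2 := congrArg (fun u : (ZMod (p ^ L))ˣ => (u : ZMod (p ^ L))) (div_left_injective htt)
        simp only [ZMod.coe_unitOfCoprime] at h2
        rw [hF, mem_filter, mem_range] at ht ht'
        have h3 := congrArg ZMod.val h2
        rwa [ZMod.val_natCast, ZMod.val_natCast, Nat.mod_eq_of_lt ht.1, Nat.mod_eq_of_lt ht'.1] at h3
    exact h1.trans (IsCyclic.card_pow_eq_one_le (by omega))

/-- unit solutions with one prescribed coordinate -/
theorem card_V_coord {h p : ℕ} (hh : 2 ≤ h) (hp : p.Prime) (hp2 : p ≠ 2) (j : Fin h) (β : ℕ) :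
    ((V h p).filter (fun b => b j = β)).card ≤ h * (p ^ h) ^ (h - 2) := by
  classical
  have : NeZero (p ^ h) := ⟨pow_ne_zero _ hp.ne_zero⟩
  obtain ⟨j', hj'⟩ : ∃ j' : Fin h, j' ≠ j := by
    have : Nontrivial (Fin h) := Fin.nontrivial_iff_two_le.2 hh
    exact exists_ne j
  let φ : (Fin h → ℕ) → (Fin h → ℕ) := fun b i => if i = j ∨ i = j' then 0 else b i
  set T : Finset (Fin h → ℕ) := Fintype.piFinset
    (fun i => if i = j ∨ i = j' then ({0} : Finset ℕ) else range (p ^ h)) with hT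
  have hTc : T.card = (p ^ h) ^ (h - 2) := by
    rw [hT, Fintype.card_piFinset]
    have : ∀ i : Fin h, (if i = j ∨ i = j' then ({0} : Finset ℕ) else range (p ^ h)).card =
        if i = j ∨ i = j' then 1 else p ^ h := by
      intro i
      split_ifs
      · rfl
      · simp
    simp only [this]
    rw [Finset.prod_ite, Finset.prod_const_one, one_mul, Finset.prod_const]
    congr 1
    have e1 : (Finset.univ.filter (fun i : Fin h => i = j ∨ i = j')) = {j, j'} := by
      ext i
      simp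
    rw [Finset.filter_not, Finset.card_sdiff_of_subset (Finset.filter_subset _ _), e1,
      Finset.card_pair hj'.symm]
    simp
  have h1 : ∀ b ∈ (V h p).filter (fun b => b j = β), φ b ∈ T := by
    intro b hb
    rw [mem_filter, mem_V] at hb
    rw [hT, Fintype.mem_piFinset]
    intro i
    simp only [φ]
    split_ifs
    · simp
    · exact mem_range.2 (hb.1.1 i)
  rw [Finset.card_eq_sum_card_fiberwise h1, ← hTc, mul_comm]
  refine Finset.sum_le_card_nsmul _ _ h ?_ |>.trans (by rw [smul_eq_mul])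
  intro z _
  -- fibre
  set s : ZMod (p ^ h) := - ((β : ZMod (p ^ h)) ^ h + ∑ i, (z i : ZMod (p ^ h)) ^ h) with hs
  refine le_trans ?_ (card_roots hp hp2 (by omega : 1 ≤ h) (by omega : 1 ≤ h) s)
  refine Finset.card_le_card_of_injOn (fun b => b j') ?_ ?_
  · intro b hb
    rw [Finset.mem_coe, mem_filter, mem_filter, mem_V] at hb
    obtain ⟨⟨⟨hb1, hb2, hb3⟩, hb4⟩, hb5⟩ := hb
    rw [Finset.mem_coe, mem_filter, mem_range]
    refine ⟨hb1 j', hb2 j', ?_⟩
    rw [← ZMod.natCast_eq_zero_iff] at hb3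
    push_cast at hb3
    have e1 : ∑ i, (b i : ZMod (p ^ h)) ^ h = (β : ZMod (p ^ h)) ^ h + (b j' : ZMod (p ^ h)) ^ h +
        ∑ i, (z i : ZMod (p ^ h)) ^ h := by
      have e2 : ∀ i, (b i : ZMod (p ^ h)) ^ h = (if i = j then (β : ZMod (p ^ h)) ^ h else 0) +
          (if i = j' then (b j' : ZMod (p ^ h)) ^ h else 0) + (z i : ZMod (p ^ h)) ^ h := by
        intro i
        rw [← hb5]
        simp only [φ]
        by_cases h1 : i = j
        · rw [if_pos h1, if_neg (by rw [h1]; exact hj'.symm), if_pos (Or.inl h1), h1, hb4]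
          simp [show h ≠ 0 by omega]
        · by_cases h2 : i = j'
          · rw [if_neg h1, if_pos h2, if_pos (Or.inr h2), h2]
            simp [show h ≠ 0 by omega]
          · rw [if_neg h1, if_neg h2, if_neg (by tauto)]
            simp
      rw [Finset.sum_congr rfl (fun i _ => e2 i), Finset.sum_add_distrib, Finset.sum_add_distrib,
        Finset.sum_ite_eq', Finset.sum_ite_eq', if_pos (mem_univ _), if_pos (mem_univ _)]
    rw [hs]
    linear_combination hb3 - e1
  · intro b hb b' hb' hbb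
    rw [Finset.mem_coe, mem_filter, mem_filter] at hb hb'
    simp only at hbb
    funext i
    by_cases h1 : i = j
    · rw [h1, hb.1.2, hb'.1.2]
    · by_cases h2 : i = j'
      · rw [h2, hbb]
      · have e := congrFun (hb.2.trans hb'.2.symm) i
        simp only [φ] at e
        rwa [if_neg (by tauto), if_neg (by tauto)] at e

/-- removal of few classes -/
theorem card_V_good {h p : ℕ} (hh : 2 ≤ h) (hp : p.Prime) (hp2 : p ≠ 2) (B : Fin h → Finset ℕ) :
    (V h p).card ≤ ((V h p).filter (fun b => ∀ j, b j ∉ B j)).card +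
      ∑ j, (B j).card * (h * (p ^ h) ^ (h - 2)) := by
  classical
  rw [← Finset.card_filter_add_card_filter_not (s := V h p) (fun b => ∀ j, b j ∉ B j)]
  refine Nat.add_le_add_left ?_ _
  have h1 : (V h p).filter (fun b => ¬ ∀ j, b j ∉ B j) ⊆
      Finset.univ.biUnion (fun j : Fin h => (B j).biUnion
        (fun β => (V h p).filter (fun b => b j = β))) := by
    intro b hb
    rw [mem_filter] at hb
    obtain ⟨hb1, hb2⟩ := hb
    push Not at hb2
    obtain ⟨j, hj⟩ := hb2
    rw [mem_biUnion]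
    refine ⟨j, mem_univ _, ?_⟩
    rw [mem_biUnion]
    exact ⟨b j, hj, mem_filter.2 ⟨hb1, rfl⟩⟩
  refine (Finset.card_le_card h1).trans (Finset.card_biUnion_le.trans ?_)
  refine Finset.sum_le_sum (fun j _ => ?_)
  exact Finset.card_biUnion_le_card_mul _ _ _ (fun β _ => card_V_coord hh hp hp2 j β)

end Pool.Agent.X6.Dens
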