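import Mathlib
import Pool.Agent.X6.Dens.A2
import Pool.Agent.X6.Dens.A3
import Pool.Agent.X6.Cubic3

/-!
Dense sets: the recursion over the primes.
-/

namespace Pool.Agent.X6.Dens

open Finset

/-- good primes -/
def GP (h p : ℕ) : Prop := p.Prime ∧ p ≠ 2 ∧ (p ^ h) ^ (h - 1) ≤ 2 ^ h * (V h p).card

theorem exists_GP (h : ℕ) (hh : 2 ≤ h) (T : ℝ) (y : ℕ) :
    ∃ D : Finset ℕ, (∀ p ∈ D, GP h p ∧ y < p) ∧ T ≤ ∑ p ∈ D, (1 : ℝ) / p := by
  rcases Nat.even_or_odd h with he | ho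
  · obtain ⟨k, rfl⟩ := he
    have : NeZero (2 * (k + k)) := ⟨by omega⟩
    obtain ⟨D, hD1, hD2⟩ := Cubic.exists_block (q := 2 * (k + k)) (a := 1) isUnit_one T (max y 2)
    refine ⟨D, fun p hp => ?_, hD2⟩
    obtain ⟨h1, h2, h3⟩ := hD1 p hp
    have h4 : 2 < p := lt_of_le_of_lt (le_max_right _ _) h3
    refine ⟨⟨h1, by omega, ?_⟩, lt_of_le_of_lt (le_max_left _ _) h3⟩
    refine V_even (by omega) h1 (by omega) ?_
    have h5 : ((p : ℕ) : ZMod (2 * (k + k))) = ((1 : ℕ) : ZMod (2 * (k + k))) := by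
      rw [h2]
      simp
    rw [ZMod.natCast_eq_natCast_iff] at h5
    exact (Nat.modEq_iff_dvd' h1.one_lt.le).1 h5.symm
  · obtain ⟨k, rfl⟩ : ∃ k, h = k + 2 := ⟨h - 2, by omega⟩
    have : NeZero (k + 2) := ⟨by omega⟩
    have h2u : IsUnit ((2 : ℕ) : ZMod (k + 2)) := by
      rw [ZMod.isUnit_iff_coprime]
      exact (Nat.coprime_two_left).2 ho
    obtain ⟨D, hD1, hD2⟩ := Cubic.exists_block (q := k + 2) h2u T (max y 2)
    refine ⟨D, fun p hp => ?_, hD2⟩
    obtain ⟨h1, h2, h3⟩ := hD1 p hp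
    have h4 : 2 < p := lt_of_le_of_lt (le_max_right _ _) h3
    refine ⟨⟨h1, by omega, ?_⟩, lt_of_le_of_lt (le_max_left _ _) h3⟩
    rw [ZMod.natCast_eq_natCast_iff] at h2
    refine V_odd h1 (by omega) ?_ ?_
    · have h5 : p - 1 ≡ 1 [MOD (k + 2)] := by
        have h6 : p - 1 + 1 ≡ 1 + 1 [MOD (k + 2)] := by
          rw [Nat.sub_add_cancel h1.one_lt.le]
          exact h2
        exact Nat.ModEq.add_right_cancel' 1 h6
      have h7 := Nat.ModEq.gcd_eq h5
      rw [Nat.gcd_one_left] at h7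
      exact Nat.Coprime.symm h7
    · have h7 := Nat.ModEq.gcd_eq h2
      have h8 : Nat.gcd 2 (k + 2) = 1 := (Nat.coprime_two_left).2 ho
      rw [h8] at h7
      exact Nat.Coprime.symm h7

/-- the tuples -/
def tup (h : ℕ) (S : Fin h → Finset ℕ) (D : Finset ℕ) : Finset (Fin h → ℕ) :=
  (Fintype.piFinset S).filter (fun x => ∀ p ∈ D, p ^ h ∣ ∑ j, x j ^ h)

theorem mem_tup {h : ℕ} {S : Fin h → Finset ℕ} {D : Finset ℕ} {x : Fin h → ℕ} :
    x ∈ tup h S D ↔ (∀ j, x j ∈ S j) ∧ ∀ p ∈ D, p ^ h ∣ ∑ j, x j ^ h := by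
  unfold tup
  rw [mem_filter, Fintype.mem_piFinset]

theorem split_count {h p : ℕ} (hh : 1 ≤ h) (S : Fin h → Finset ℕ) (D : Finset ℕ)
    (G : Finset (Fin h → ℕ)) (hG : G ⊆ V h p) :
    (tup h (fun j => (S j).filter (fun x => p ∣ x)) D).card +
      ∑ b ∈ G, (tup h (fun j => (S j).filter (fun x => x % p ^ h = b j)) D).card ≤
      (tup h S (insert p D)).card := by
  classical
  set X := tup h S (insert p D) with hX
  have hpp : p ∣ p ^ h := dvd_pow_self p (by omega)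
  have j0 : Fin h := ⟨0, hh⟩
  rw [← Finset.card_filter_add_card_filter_not (s := X) (fun x => ∀ j, p ∣ x j)]
  refine Nat.add_le_add ?_ ?_
  · refine Finset.card_le_card ?_
    intro x hx
    obtain ⟨hx1, hx2⟩ := mem_tup.1 hx
    have hx3 : ∀ j, x j ∈ S j ∧ p ∣ x j := fun j => mem_filter.1 (hx1 j)
    rw [mem_filter, hX, mem_tup]
    refine ⟨⟨fun j => (hx3 j).1, ?_⟩, fun j => (hx3 j).2⟩
    intro q hq
    rw [mem_insert] at hq
    rcases hq with rfl | hq
    · exact Finset.dvd_sum (fun j _ => pow_dvd_pow_of_dvd (hx3 j).2 h)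
    · exact hx2 q hq
  · have h1 : ∑ b ∈ G, (tup h (fun j => (S j).filter (fun x => x % p ^ h = b j)) D).card ≤
        ∑ b ∈ G, (((X.filter (fun x => ¬ ∀ j, p ∣ x j)).filter
          (fun x => (fun j => x j % p ^ h) ∈ G)).filter
          (fun x => (fun j => x j % p ^ h) = b)).card := by
      refine Finset.sum_le_sum (fun b hb => Finset.card_le_card ?_)
      intro x hx
      obtain ⟨hx1, hx2⟩ := mem_tup.1 hx
      have hx3 : ∀ j, x j ∈ S j ∧ x j % p ^ h = b j := fun j => mem_filter.1 (hx1 j)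
      have hbV := mem_V.1 (hG hb)
      have hxb : (fun j => x j % p ^ h) = b := funext fun j => (hx3 j).2
      rw [mem_filter, mem_filter, mem_filter, hX, mem_tup]
      refine ⟨⟨⟨⟨fun j => (hx3 j).1, ?_⟩, ?_⟩, by rw [hxb]; exact hb⟩, hxb⟩
      · intro q hq
        rw [mem_insert] at hq
        rcases hq with rfl | hq
        · have e1 : ∑ j, x j ^ h ≡ ∑ j, b j ^ h [MOD q ^ h] := by
            apply Nat.ModEq.sum
            intro j _
            apply Nat.ModEq.pow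
            rw [← (hx3 j).2]
            exact (Nat.mod_modEq _ _).symm
          exact (Nat.ModEq.dvd_iff e1 (dvd_refl _)).2 hbV.2.2
        · exact hx2 q hq
      · intro hcon
        apply hbV.2.1 j0
        rw [← (hx3 j0).2]
        exact (Nat.dvd_mod_iff hpp).2 (hcon j0)
    refine h1.trans ?_
    have h2 := Finset.card_eq_sum_card_fiberwise
      (s := (X.filter (fun x => ¬ ∀ j, p ∣ x j)).filter (fun x => (fun j => x j % p ^ h) ∈ G))
      (t := G) (f := fun x => (fun j => x j % p ^ h)) (fun x hx => (mem_filter.1 hx).2)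
    rw [← h2]
    exact Finset.card_le_card (Finset.filter_subset _ _)

/-- many good unit solutions -/
theorem good_count {h p N : ℕ} (hh : 2 ≤ h) (hp : GP h p) (S : Fin h → Finset ℕ) (W : Fin h → ℕ)
    {t : ℝ} (ht : 0 < t)
    (hv : ∀ j, (p : ℝ) * vr (S j) N (W j) (p ^ h) ≤ t ^ 2 * (1 / 2 ^ h) / (2 * h ^ 2)) :
    1 / 2 ^ h / 2 * ((p : ℝ) ^ h) ^ (h - 1) ≤
      (((V h p).filter (fun b => ∀ j, b j ∉ (range (p ^ h)).filter
        (fun a => rb (S j) N (W j) (p ^ h) a < rh (S j) N (W j) - t))).card : ℝ) := by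
  classical
  obtain ⟨hp1, hp2, hp3⟩ := hp
  set q : ℕ := p ^ h with hq
  have hq0 : 0 < q := pow_pos hp1.pos h
  have hqr : (0 : ℝ) < q := by exact_mod_cast hq0
  have hhr : (0 : ℝ) < h := by
    have : 0 < h := by omega
    exact_mod_cast this
  have hpr : (1 : ℝ) ≤ p := by exact_mod_cast hp1.one_lt.le
  set B : Fin h → Finset ℕ := fun j => (range q).filter
    (fun a => rb (S j) N (W j) q a < rh (S j) N (W j) - t) with hB
  have h1 := card_V_good hh hp1 hp2 B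
  have h1r : ((V h p).card : ℝ) ≤ (((V h p).filter (fun b => ∀ j, b j ∉ B j)).card : ℝ) +
      ∑ j, ((B j).card : ℝ) * (h * ((q : ℝ)) ^ (h - 2)) := by exact_mod_cast h1
  have h2 : (1 : ℝ) / 2 ^ h * (q : ℝ) ^ (h - 1) ≤ (V h p).card := by
    rw [one_div, inv_mul_le_iff₀ (by positivity)]
    exact_mod_cast hp3
  have h3 : ∀ j, ((B j).card : ℝ) * (h * ((q : ℝ)) ^ (h - 2)) ≤
      1 / 2 ^ h / 2 * (q : ℝ) ^ (h - 1) / h := by
    intro j
    have e1 := bad_classes (S := S j) (N := N) (W := W j) hq0 ht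
    have e2 : vr (S j) N (W j) q ≤ t ^ 2 * (1 / 2 ^ h) / (2 * h ^ 2) := by
      refine le_trans ?_ (hv j)
      have := vr_nonneg (S j) N (W j) q
      nlinarith
    have e3 : ((B j).card : ℝ) * t ^ 2 ≤ (q * ((1 / 2 ^ h) / (2 * h ^ 2))) * t ^ 2 := by
      calc ((B j).card : ℝ) * t ^ 2 ≤ q * vr (S j) N (W j) q := e1
        _ ≤ q * (t ^ 2 * (1 / 2 ^ h) / (2 * h ^ 2)) := mul_le_mul_of_nonneg_left e2 hqr.le
        _ = _ := by ring
    have e4 : ((B j).card : ℝ) ≤ q * ((1 / 2 ^ h) / (2 * h ^ 2)) :=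
      le_of_mul_le_mul_right e3 (by positivity)
    have e5 : (q : ℝ) ^ (h - 1) = q * (q : ℝ) ^ (h - 2) := by
      rw [← pow_succ']
      congr 1
      omega
    calc ((B j).card : ℝ) * (h * ((q : ℝ)) ^ (h - 2)) ≤
        (q * ((1 / 2 ^ h) / (2 * h ^ 2))) * (h * ((q : ℝ)) ^ (h - 2)) :=
          mul_le_mul_of_nonneg_right e4 (by positivity)
      _ = 1 / 2 ^ h / 2 * (q : ℝ) ^ (h - 1) / h := by
          rw [e5]
          field_simp
  have h4 : ∑ j, ((B j).card : ℝ) * (h * ((q : ℝ)) ^ (h - 2)) ≤ 1 / 2 ^ h / 2 * (q : ℝ) ^ (h - 1) := by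
    refine (Finset.sum_le_sum (fun j _ => h3 j)).trans (le_of_eq ?_)
    rw [Finset.sum_const, card_univ, Fintype.card_fin, nsmul_eq_mul]
    field_simp
  have e6 : ((p : ℝ) ^ h) = (q : ℝ) := by
    rw [hq]
    push_cast
    rfl
  rw [e6]
  linarith

end Pool.Agent.X6.Dens
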