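import Mathlib
import Pool.Agent.X6.Dens.A4

/-!
Dense sets: the recursion over the primes (conclusion).
-/

namespace Pool.Agent.X6.Dens

open Finset

/-- the inductive claim -/
def Claim (h : ℕ) (C : ℝ) (k : ℕ) : Prop :=
  ∀ (δ : ℝ), 0 < δ → ∀ (r y : ℕ), ∃ P : Finset ℕ, (∀ p ∈ P, GP h p ∧ y < p) ∧
    ∀ (ι : Type) [Fintype ι], Fintype.card ι ≤ r →
    ∀ (N : ℕ), 0 < N → ∀ (S : ι → Fin h → Finset ℕ) (W : ι → Fin h → ℕ),
      (∀ i j, 0 < W i j) → (∀ i j, ∃ β, S i j ⊆ cls N (W i j) β) →
      (∀ i j, ∀ p ∈ P, Nat.Coprime (W i j) p) →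
      (∀ i j, W i j * ∏ p ∈ P, p ^ h ∣ N) →
      (∀ i j, δ ≤ rh (S i j) N (W i j)) →
      ∃ D, D ⊆ P ∧ D.card = k ∧ ∀ i, C ^ k * (δ * N) ^ h ≤
        (tup h (S i) D).card * ((∏ p ∈ D, (p : ℝ)) ^ h * ∏ j, (W i j : ℝ))

theorem claim_zero (h : ℕ) (C : ℝ) : Claim h C 0 := by
  intro δ hδ r y
  refine ⟨∅, by simp, ?_⟩
  intro ι _ _ N hN S W hW hS _ _ hρ
  refine ⟨∅, Finset.Subset.refl _, rfl, fun i => ?_⟩
  have hNr : (0 : ℝ) < N := by exact_mod_cast hN
  have h1 : (tup h (S i) ∅) = Fintype.piFinset (S i) := by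
    ext x
    rw [mem_tup, Fintype.mem_piFinset]
    simp
  rw [h1, Fintype.card_piFinset]
  simp only [pow_zero, one_mul, Finset.prod_empty, one_pow]
  push_cast
  rw [← Finset.prod_mul_distrib]
  calc (δ * N) ^ h = ∏ _j : Fin h, (δ * N : ℝ) := by simp
    _ ≤ ∏ j, (((S i j).card : ℝ) * (W i j : ℝ)) := by
        refine Finset.prod_le_prod (fun j _ => by positivity) (fun j _ => ?_)
        have := hρ i j
        rw [rh, le_div_iff₀ hNr] at this
        exact this

theorem card_V_le (h p : ℕ) : (V h p).card ≤ (p ^ h) ^ h := by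
  refine (Finset.card_filter_le _ _).trans (le_of_eq ?_)
  rw [Fintype.card_piFinset]
  simp

theorem claim_succ {h : ℕ} (hh : 2 ≤ h) {k : ℕ} (ih : Claim h (1 + 1 / 2 ^ h / 4) k) :
    Claim h (1 + 1 / 2 ^ h / 4) (k + 1) := by
  classical
  intro δ hδ r y
  have hhr : (0 : ℝ) < h := by
    have : 0 < h := by omega
    exact_mod_cast this
  have hh1 : (1 : ℝ) ≤ h := by
    have : 1 ≤ h := by omega
    exact_mod_cast this
  set c : ℝ := 1 / 2 ^ h with hc
  have hc0 : 0 < c := by positivity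
  have hc1 : c ≤ 1 := by
    rw [hc, div_le_one (by positivity)]
    exact one_le_pow₀ (by norm_num)
  set ε : ℝ := c / (8 * h) with hε
  have hε0 : 0 < ε := by positivity
  have hε1 : ε < 1 := by
    rw [hε, div_lt_one (by positivity)]
    linarith
  set t : ℝ := ε * δ with ht
  have ht0 : 0 < t := by positivity
  set η : ℝ := t ^ 2 * c / (2 * h ^ 2) with hη
  have hη0 : 0 < η := by positivity
  have hηt : η ≤ t ^ 2 := by
    rw [hη, div_le_iff₀ (by positivity)]
    have h1 : (1 : ℝ) ≤ 2 * (h : ℝ) ^ 2 := by nlinarith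
    have h2 : 0 < t ^ 2 := by positivity
    nlinarith
  obtain ⟨P₁, hP₁, hsum⟩ := exists_GP h hh ((r * h + 1) / η) y
  set M : ℕ := P₁.sup id with hM
  have hPM : ∀ p ∈ P₁, p ≤ M := fun p hp => Finset.le_sup (f := id) hp
  obtain ⟨P₂, hP₂, hrec⟩ := ih ((1 - ε) * δ) (mul_pos (by linarith) hδ) (r * (1 + (M ^ h) ^ h))
    (max y M)
  have hdisj : Disjoint P₁ P₂ := by
    rw [Finset.disjoint_left]
    intro p hp hp'
    have h1 := hPM p hp
    have h2 := lt_of_le_of_lt (le_max_right _ _) (hP₂ p hp').2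
    omega
  refine ⟨P₁ ∪ P₂, ?_, ?_⟩
  · intro p hp
    rcases Finset.mem_union.1 hp with hp | hp
    · exact hP₁ p hp
    · exact ⟨(hP₂ p hp).1, lt_of_le_of_lt (le_max_left _ _) (hP₂ p hp).2⟩
  intro ι _ hι N hN S W hW hS hco hdvd hρ
  have hNr : (0 : ℝ) < N := by exact_mod_cast hN
  choose β hβ using hS
  -- selection
  obtain ⟨p, hp, hsel⟩ := select (κ := ι × Fin h) (h := h) hN P₁ (fun p hp => (hP₁ p hp).1.1)
    (fun z => S z.1 z.2) (fun z => W z.1 z.2) (fun z => β z.1 z.2) (fun z => hW z.1 z.2)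
    (fun z => hβ z.1 z.2) (fun z p hp => hco z.1 z.2 p (Finset.mem_union_left _ hp))
    (fun z => by
      refine dvd_trans (Nat.mul_dvd_mul_left _ ?_) (hdvd z.1 z.2)
      exact Finset.prod_dvd_prod_of_subset _ _ _ Finset.subset_union_left) η hη0
    (by
      refine le_trans ?_ hsum
      have h1 : (Fintype.card (ι × Fin h) : ℝ) ≤ r * h := by
        rw [Fintype.card_prod, Fintype.card_fin]
        push_cast
        have : (Fintype.card ι : ℝ) ≤ r := by exact_mod_cast hι
        exact mul_le_mul_of_nonneg_right this hhr.le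
      gcongr)
  have hGP := (hP₁ p hp).1
  have hpp : p.Prime := hGP.1
  have hpr : (0 : ℝ) < p := by exact_mod_cast hpp.pos
  set q : ℕ := p ^ h with hq
  have hq0 : 0 < q := pow_pos hpp.pos h
  have hqr : (0 : ℝ) < q := by exact_mod_cast hq0
  -- good tuples
  let G : ι → Finset (Fin h → ℕ) := fun i => (V h p).filter (fun b => ∀ j, b j ∉ (range q).filter
        (fun a => rb (S i j) N (W i j) q a < rh (S i j) N (W i j) - t))
  have hG : ∀ i, c / 2 * ((p : ℝ) ^ h) ^ (h - 1) ≤ ((G i).card : ℝ) := by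
    intro i
    exact good_count hh hGP (S i) (W i) ht0 (fun j => hsel (i, j))
  -- the new family
  let ι' : Type := Σ i : ι, Option {b : Fin h → ℕ // b ∈ G i}
  let S' : ι' → Fin h → Finset ℕ := fun z j => match z.2 with
    | none => (S z.1 j).filter (fun x => p ∣ x)
    | some b => (S z.1 j).filter (fun x => x % q = b.1 j)
  let W' : ι' → Fin h → ℕ := fun z j => match z.2 with
    | none => W z.1 j * p
    | some b => W z.1 j * q
  have hcard : Fintype.card ι' ≤ r * (1 + (M ^ h) ^ h) := by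
    rw [Fintype.card_sigma]
    have h1 : ∀ i : ι, Fintype.card (Option {b : Fin h → ℕ // b ∈ G i}) ≤ 1 + (M ^ h) ^ h := by
      intro i
      rw [Fintype.card_option, Fintype.card_coe, add_comm]
      refine Nat.add_le_add_left ?_ _
      refine (Finset.card_filter_le _ _).trans ((card_V_le h p).trans ?_)
      exact Nat.pow_le_pow_left (Nat.pow_le_pow_left (hPM p hp) _) _
    refine (Finset.sum_le_card_nsmul _ _ _ (fun i _ => h1 i)).trans ?_
    rw [Finset.card_univ, smul_eq_mul]
    exact Nat.mul_le_mul_right _ hι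
  obtain ⟨D, hD1, hD2, hD3⟩ := hrec ι' hcard N hN S' W'
    (by
      rintro ⟨i, o⟩ j
      cases o with
      | none => exact Nat.mul_pos (hW i j) hpp.pos
      | some b => exact Nat.mul_pos (hW i j) hq0)
    (by
      have hcop : ∀ i j, Nat.Coprime (W i j) p := fun i j =>
        hco i j p (Finset.mem_union_left _ hp)
      rintro ⟨i, o⟩ j
      cases o with
      | none =>
        obtain ⟨a, ha⟩ := filter_cls (N := N) (hcop i j) (β i j) 0
        refine ⟨a, ?_⟩
        intro x hx
        have hx' : x ∈ (S i j).filter (fun x => p ∣ x) := hx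
        rw [mem_filter] at hx'
        have h1 : x ∈ (cls N (W i j) (β i j)).filter (fun x => x % p = 0 % p) := by
          rw [mem_filter]
          refine ⟨hβ i j hx'.1, ?_⟩
          rw [Nat.zero_mod]
          exact Nat.mod_eq_zero_of_dvd hx'.2
        rw [ha] at h1
        exact h1
      | some b =>
        obtain ⟨a, ha⟩ := filter_cls (N := N) (Nat.Coprime.pow_right h (hcop i j)) (β i j) (b.1 j)
        refine ⟨a, ?_⟩
        intro x hx
        have hx' : x ∈ (S i j).filter (fun x => x % q = b.1 j) := hx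
        rw [mem_filter] at hx'
        have h1 : x ∈ (cls N (W i j) (β i j)).filter (fun x => x % p ^ h = b.1 j % p ^ h) := by
          rw [mem_filter]
          refine ⟨hβ i j hx'.1, ?_⟩
          rw [← hx'.2, ← hq, Nat.mod_mod]
        rw [ha] at h1
        exact h1)
    (by
      have hcop : ∀ i j, ∀ p' ∈ P₂, Nat.Coprime (W i j) p' := fun i j p' hp' =>
        hco i j p' (Finset.mem_union_right _ hp')
      have hcop2 : ∀ p' ∈ P₂, Nat.Coprime p p' := by
        intro p' hp'
        refine (Nat.coprime_primes hpp (hP₂ p' hp').1.1).2 ?_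
        rintro rfl
        exact Finset.disjoint_left.1 hdisj hp hp'
      rintro ⟨i, o⟩ j p' hp'
      cases o with
      | none => exact Nat.Coprime.mul_left (hcop i j p' hp') (hcop2 p' hp')
      | some b => exact Nat.Coprime.mul_left (hcop i j p' hp') (Nat.Coprime.pow_left _ (hcop2 p' hp')))
    (by
      have h1 : ∀ i j, W i j * (q * ∏ p' ∈ P₂, p' ^ h) ∣ N := by
        intro i j
        refine dvd_trans (Nat.mul_dvd_mul_left _ ?_) (hdvd i j)
        rw [Finset.prod_union hdisj]
        exact Nat.mul_dvd_mul_right (Finset.dvd_prod_of_mem (fun p' => p' ^ h) hp) _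
      rintro ⟨i, o⟩ j
      cases o with
      | none =>
        refine dvd_trans ?_ (h1 i j)
        change W i j * p * ∏ p' ∈ P₂, p' ^ h ∣ _
        rw [mul_assoc]
        exact Nat.mul_dvd_mul_left _ (Nat.mul_dvd_mul_right (dvd_pow_self p (by omega)) _)
      | some b =>
        change W i j * q * ∏ p' ∈ P₂, p' ^ h ∣ _
        rw [mul_assoc]
        exact h1 i j)
    (by
      rintro ⟨i, o⟩ j
      cases o with
      | none =>
        have h1 := zero_part (S := S i j) (W := W i j) hN hpp (by omega : 1 ≤ h) (η := t)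
          ((hsel (i, j)).trans hηt) ht0.le
        have h2 := hρ i j
        refine le_trans ?_ h1
        rw [ht]
        linarith
      | some b =>
        have h1 := (mem_filter.1 b.2).2 j
        have hbV := (mem_V.1 (mem_filter.1 b.2).1).1 j
        rw [mem_filter, not_and, not_lt] at h1
        have h2 := h1 (mem_range.2 hbV)
        have h3 := hρ i j
        have h4 : rb (S i j) N (W i j) q (b.1 j) =
            rh ((S i j).filter (fun x => x % q = b.1 j)) N (W i j * q) := by
          unfold rb rh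
          push_cast
          rfl
        rw [h4] at h2
        refine le_trans ?_ h2
        rw [ht]
        linarith)
  have hpD : p ∉ D := fun hpD => Finset.disjoint_left.1 hdisj hp (hD1 hpD)
  refine ⟨insert p D, ?_, ?_, ?_⟩
  · intro x hx
    rcases Finset.mem_insert.1 hx with rfl | hx
    · exact Finset.mem_union_left _ hp
    · exact Finset.mem_union_right _ (hD1 hx)
  · rw [Finset.card_insert_of_notMem hpD, hD2]
  intro i
  set C : ℝ := 1 + c / 4 with hC
  set E : ℝ := C ^ k * ((1 - ε) * δ * N) ^ h with hE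
  have hC0 : 0 < C := by positivity
  have hE0 : 0 ≤ E := by
    have : 0 < 1 - ε := by linarith
    positivity
  set R : ℝ := (∏ p ∈ D, (p : ℝ)) ^ h * ∏ j, (W i j : ℝ) with hR
  have hR0 : 0 ≤ R := by positivity
  have hn : E ≤ ((tup h (fun j => (S i j).filter (fun x => p ∣ x)) D).card : ℝ) * (R * (p : ℝ) ^ h) := by
    have h1 := hD3 ⟨i, none⟩
    refine h1.trans (le_of_eq ?_)
    have h2 : ∏ j, (W' ⟨i, none⟩ j : ℝ) = (∏ j, (W i j : ℝ)) * (p : ℝ) ^ h := by
      have : ∀ j, (W' ⟨i, none⟩ j : ℝ) = (W i j : ℝ) * p := by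
        intro j
        simp only [W']
        push_cast
        rfl
      simp only [this]
      rw [Finset.prod_mul_distrib]
      simp
    rw [h2, hR]
    have h3 : S' ⟨i, none⟩ = fun j => (S i j).filter (fun x => p ∣ x) := rfl
    rw [h3]
    ring
  have hs : ∀ b ∈ G i, E ≤ ((tup h (fun j => (S i j).filter (fun x => x % q = b j)) D).card : ℝ) *
      (R * (p : ℝ) ^ h) * ((p : ℝ) ^ h) ^ (h - 1) := by
    intro b hb
    have h1 := hD3 ⟨i, some ⟨b, hb⟩⟩
    refine h1.trans (le_of_eq ?_)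
    have h2 : ∏ j, (W' ⟨i, some ⟨b, hb⟩⟩ j : ℝ) =
        (∏ j, (W i j : ℝ)) * ((p : ℝ) ^ h * ((p : ℝ) ^ h) ^ (h - 1)) := by
      have : ∀ j, (W' ⟨i, some ⟨b, hb⟩⟩ j : ℝ) = (W i j : ℝ) * (p : ℝ) ^ h := by
        intro j
        simp only [W', hq]
        push_cast
        rfl
      simp only [this]
      rw [Finset.prod_mul_distrib, ← pow_succ', Nat.sub_add_cancel (by omega : 1 ≤ h)]
      simp
    rw [h2, hR]
    have h3 : S' ⟨i, some ⟨b, hb⟩⟩ = fun j => (S i j).filter (fun x => x % q = b j) := rfl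
    rw [h3]
    ring
  have hsplit := split_count (p := p) (by omega : 1 ≤ h) (S i) D (G i) (Finset.filter_subset _ _)
  have hsplitr : ((tup h (fun j => (S i j).filter (fun x => p ∣ x)) D).card : ℝ) +
      ∑ b ∈ G i, ((tup h (fun j => (S i j).filter (fun x => x % q = b j)) D).card : ℝ) ≤
      ((tup h (S i) (insert p D)).card : ℝ) := by
    exact_mod_cast hsplit
  set Z : ℝ := R * (p : ℝ) ^ h with hZ
  have hZ0 : 0 ≤ Z := by positivity
  set Y : ℝ := ((p : ℝ) ^ h) ^ (h - 1) with hY
  have hY0 : 0 < Y := by positivity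
  have hsum2 : ((G i).card : ℝ) * E ≤
      (∑ b ∈ G i, ((tup h (fun j => (S i j).filter (fun x => x % q = b j)) D).card : ℝ)) * Z * Y := by
    rw [Finset.sum_mul, Finset.sum_mul, ← nsmul_eq_mul]
    exact Finset.card_nsmul_le_sum _ _ _ hs
  have hhalf : c / 2 * E ≤
      (∑ b ∈ G i, ((tup h (fun j => (S i j).filter (fun x => x % q = b j)) D).card : ℝ)) * Z := by
    have h1 : c / 2 * Y * E ≤ (∑ b ∈ G i,
        ((tup h (fun j => (S i j).filter (fun x => x % q = b j)) D).card : ℝ)) * Z * Y :=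
      le_trans (mul_le_mul_of_nonneg_right (hG i) hE0) hsum2
    have h2 : c / 2 * E * Y ≤ (∑ b ∈ G i,
        ((tup h (fun j => (S i j).filter (fun x => x % q = b j)) D).card : ℝ)) * Z * Y := by
      calc c / 2 * E * Y = c / 2 * Y * E := by ring
        _ ≤ _ := h1
    exact le_of_mul_le_mul_right h2 hY0
  have hfin : (1 + c / 2) * E ≤ ((tup h (S i) (insert p D)).card : ℝ) * Z := by
    calc (1 + c / 2) * E = E + c / 2 * E := by ring
      _ ≤ _ := add_le_add hn hhalf
      _ = (((tup h (fun j => (S i j).filter (fun x => p ∣ x)) D).card : ℝ) +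
          ∑ b ∈ G i, ((tup h (fun j => (S i j).filter (fun x => x % q = b j)) D).card : ℝ)) * Z := by
            ring
      _ ≤ _ := mul_le_mul_of_nonneg_right hsplitr hZ0
  have hber : C ≤ (1 - ε) ^ h * (1 + c / 2) := by
    have h1 := one_add_mul_le_pow (a := -ε) (by linarith) h
    have h2 : (h : ℝ) * (-ε) = -(c / 8) := by
      rw [hε]
      field_simp
    rw [h2, ← sub_eq_add_neg, ← sub_eq_add_neg] at h1
    calc C = 1 + c / 4 := hC
      _ ≤ (1 - c / 8) * (1 + c / 2) := by nlinarith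
      _ ≤ _ := mul_le_mul_of_nonneg_right h1 (by positivity)
  have hgoal : C ^ (k + 1) * (δ * N) ^ h ≤ (1 + c / 2) * E := by
    rw [hE]
    have h1 : 0 ≤ C ^ k * (δ * N) ^ h := by positivity
    calc C ^ (k + 1) * (δ * N) ^ h = C * (C ^ k * (δ * N) ^ h) := by ring
      _ ≤ (1 - ε) ^ h * (1 + c / 2) * (C ^ k * (δ * N) ^ h) := mul_le_mul_of_nonneg_right hber h1
      _ = (1 + c / 2) * (C ^ k * ((1 - ε) * δ * N) ^ h) := by
          rw [show (1 - ε) * δ * N = (1 - ε) * (δ * N) by ring, mul_pow (1 - ε)]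
          ring
  refine hgoal.trans (hfin.trans (le_of_eq ?_))
  rw [Finset.prod_insert hpD, hZ, hR, mul_pow]
  ring

theorem claim {h : ℕ} (hh : 2 ≤ h) (k : ℕ) : Claim h (1 + 1 / 2 ^ h / 4) k := by
  induction k with
  | zero => exact claim_zero h _
  | succ k ih => exact claim_succ hh ih

end Pool.Agent.X6.Dens
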