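import Mathlib
import Pool.Agent.X6.Dens.A5
import Pool.Agent.X6.NearPow2

/-!
Sets with a bounded representation function of order `h` contain few elements near an affine copy
of the `h`-th powers.
-/

namespace Pool.Agent.X6.Dens

open Finset Pool.Agent.X6.NearPow

theorem dvd_of_tup {h : ℕ} {D : Finset ℕ} (hD : ∀ p ∈ D, p.Prime) {v : ℕ}
    (hv : ∀ p ∈ D, p ^ h ∣ v) : (∏ p ∈ D, p) ^ h ∣ v := by
  rw [← Finset.prod_pow]
  refine Finset.prod_dvd_of_isRelPrime ?_ hv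
  intro p hp q hq hpq
  exact Nat.coprime_iff_isRelPrime.1
    (Nat.Coprime.pow h h ((Nat.coprime_primes (hD p hp) (hD q hq)).2 hpq))

open Classical in
/-- The main theorem. -/
theorem main (h : ℕ) (hh : 2 ≤ h) (K : ℕ) (c₁ w δ : ℝ) (hc₁ : 0 < c₁) (hδ : 0 < δ) :
    ∃ N₀ : ℕ, ∀ A : Set ℕ, (∀ n, r A h n ≤ K) → ∀ N : ℕ, N₀ ≤ N →
      ∀ c τ : ℝ, c₁ ≤ c → (((Finset.range N).filter
        (fun x : ℕ => ∃ a ∈ A, |(a : ℝ) - (c * (x : ℝ) ^ h + τ)| ≤ w)).card : ℝ) ≤ δ * N := by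
  set F : ℕ := (h * (⌊2 * w / c₁⌋₊ + 1)) ^ h * ((⌊2 * (h * w)⌋₊ + 1) * K) with hF
  set C : ℝ := 1 + 1 / 2 ^ h / 4 with hC
  have hC1 : 1 < C := by
    rw [hC]
    have : (0 : ℝ) < 1 / 2 ^ h / 4 := by positivity
    linarith
  have hC0 : 0 < C := by linarith
  have hhr : (0 : ℝ) < h := by
    have : 0 < h := by omega
    exact_mod_cast this
  obtain ⟨k, hk⟩ := pow_unbounded_of_one_lt (2 * h * F / (δ / 2) ^ h) hC1
  have hk' : 2 * h * F < C ^ k * (δ / 2) ^ h := by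
    rwa [div_lt_iff₀ (by positivity)] at hk
  obtain ⟨P, hP, hcl⟩ := claim hh k (δ / 2) (by positivity) 1 0
  set Q : ℕ := ∏ p ∈ P, p ^ h with hQ
  have hQ0 : 0 < Q := Finset.prod_pos (fun p hp => pow_pos (hP p hp).1.1.pos h)
  have hQr : (0 : ℝ) < Q := by exact_mod_cast hQ0
  refine ⟨Q + ⌈2 * Q / δ⌉₊, ?_⟩
  intro A hA N hN c τ hc
  have hN1 : Q ≤ N := by omega
  have hN0 : 0 < N := by omega
  have hNr : (0 : ℝ) < N := by exact_mod_cast hN0
  have hN2 : (Q : ℝ) ≤ δ / 2 * N := by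
    have h0 : ⌈2 * (Q : ℝ) / δ⌉₊ ≤ N := by omega
    have h1 : 2 * (Q : ℝ) / δ ≤ N := (Nat.le_ceil _).trans (by exact_mod_cast h0)
    rw [div_le_iff₀ hδ] at h1
    linarith
  by_contra hcon
  push Not at hcon
  set S := (Finset.range N).filter
    (fun x : ℕ => ∃ a ∈ A, |(a : ℝ) - (c * (x : ℝ) ^ h + τ)| ≤ w) with hS
  -- choose close elements
  have hchoice : ∀ x : ℕ, ∃ a : ℕ, (x ∈ S → a ∈ A ∧
      |(a : ℝ) - (c * (x : ℝ) ^ h + τ)| ≤ w) := by
    intro x
    by_cases hx : x ∈ S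
    · obtain ⟨a, ha, h2⟩ := (Finset.mem_filter.1 hx).2
      exact ⟨a, fun _ => ⟨ha, h2⟩⟩
    · exact ⟨0, fun h1 => absurd h1 hx⟩
  choose b hb using hchoice
  set N' : ℕ := N / Q * Q with hN'
  have hN'N : N' ≤ N := Nat.div_mul_le_self N Q
  have hN'0 : 0 < N' := Nat.mul_pos (Nat.div_pos hN1 hQ0) hQ0
  have hN'r : (0 : ℝ) < N' := by exact_mod_cast hN'0
  have hN'Q : Q ≤ N' := Nat.le_mul_of_pos_left Q (Nat.div_pos hN1 hQ0)
  have hNN' : N < N' + Q := Nat.lt_div_mul_add hQ0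
  set S' := S.filter (fun x => x < N') with hS'
  have hSS' : S.card ≤ S'.card + Q := by
    rw [← Finset.card_filter_add_card_filter_not (s := S) (fun x => x < N')]
    refine Nat.add_le_add_left ?_ _
    have h1 : S.filter (fun x => ¬ x < N') ⊆ Finset.Ico N' (N' + Q) := by
      intro x hx
      rw [mem_filter, hS, mem_filter, Finset.mem_range] at hx
      rw [Finset.mem_Ico]
      omega
    refine (Finset.card_le_card h1).trans ?_
    rw [Nat.card_Ico]
    omega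
  have hρ : δ / 2 ≤ rh S' N' 1 := by
    rw [rh, le_div_iff₀ hN'r]
    have h1 : (S.card : ℝ) ≤ S'.card + Q := by exact_mod_cast hSS'
    have h2 : (N' : ℝ) ≤ N := by exact_mod_cast hN'N
    have h3 : δ / 2 * (N' : ℝ) ≤ δ / 2 * N := mul_le_mul_of_nonneg_left h2 (by positivity)
    push_cast
    linarith
  obtain ⟨D, hD1, -, hD3⟩ := hcl Unit (by simp) N' hN'0 (fun _ _ => S') (fun _ _ => 1)
    (fun _ _ => one_pos)
    (fun _ _ => ⟨0, fun x hx => by
      rw [mem_cls]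
      exact ⟨(mem_filter.1 hx).2, by simp [Nat.mod_one]⟩⟩)
    (fun _ _ p _ => Nat.coprime_one_left p)
    (fun _ _ => by
      rw [one_mul]
      exact Dvd.intro_left _ rfl)
    (fun _ _ => hρ)
  have hD4 := hD3 ()
  set E := tup h (fun _ => S') D with hE
  set M : ℕ := (∏ p ∈ D, p) ^ h with hM
  have hDp : ∀ p ∈ D, p.Prime := fun p hp => (hP p (hD1 hp)).1.1
  have hM0 : 0 < M := pow_pos (Finset.prod_pos (fun p hp => (hDp p hp).pos)) h
  have hMr : (0 : ℝ) < M := by exact_mod_cast hM0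
  have hMQ : M ≤ Q := by
    rw [hM, ← Finset.prod_pow, hQ]
    exact Nat.le_of_dvd hQ0 (Finset.prod_dvd_prod_of_subset _ _ _ hD1)
  have hfib : E.card ≤ F * (h * N' ^ h / M + 1) := by
    have h1 : ∀ x ∈ E, (∑ i, x i ^ h) / M ∈ Finset.range (h * N' ^ h / M + 1) := by
      intro x hx
      have h2 := (mem_tup.1 hx).1
      rw [Finset.mem_range]
      have h3 : ∑ i, x i ^ h ≤ h * N' ^ h := by
        calc ∑ i, x i ^ h ≤ ∑ _i : Fin h, N' ^ h :=
              Finset.sum_le_sum (fun i _ => Nat.pow_le_pow_left (mem_filter.1 (h2 i)).2.le h)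
          _ = h * N' ^ h := by simp
      have := Nat.div_le_div_right (c := M) h3
      omega
    rw [Finset.card_eq_sum_card_fiberwise h1]
    have h2 : ∀ v ∈ Finset.range (h * N' ^ h / M + 1),
        (E.filter (fun x => (∑ i, x i ^ h) / M = v)).card ≤ F := by
      intro v _
      refine fiber_bound (τ := τ) (by omega) hc₁ hc hA b _ (M * v) ?_
      intro x hx
      rw [Finset.mem_filter] at hx
      have h3 := mem_tup.1 hx.1
      refine ⟨fun i => hb (x i) (mem_filter.1 (h3.1 i)).1, ?_⟩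
      rw [← hx.2]
      exact (Nat.mul_div_cancel' (dvd_of_tup hDp h3.2)).symm
    refine (Finset.sum_le_card_nsmul _ _ _ h2).trans ?_
    rw [Finset.card_range, smul_eq_mul, mul_comm]
  have hMN : (M : ℝ) ≤ (N' : ℝ) ^ h := by
    have : M ≤ N' ^ h := (hMQ.trans hN'Q).trans (Nat.le_self_pow (by omega) N')
    exact_mod_cast this
  have hNh : (0 : ℝ) < (N' : ℝ) ^ h := by positivity
  have r3 : (E.card : ℝ) ≤ F * (2 * h * (N' : ℝ) ^ h / M) := by
    have e1 : (E.card : ℝ) ≤ F * (((h * N' ^ h / M : ℕ) : ℝ) + 1) := by exact_mod_cast hfib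
    have e2 : ((h * N' ^ h / M : ℕ) : ℝ) ≤ (h : ℝ) * (N' : ℝ) ^ h / M := by
      have := Nat.cast_div_le (α := ℝ) (m := h * N' ^ h) (n := M)
      push_cast at this
      exact this
    have e3 : (1 : ℝ) ≤ (h : ℝ) * (N' : ℝ) ^ h / M := by
      rw [le_div_iff₀ hMr, one_mul]
      have : (1 : ℝ) ≤ h := by
        have : 1 ≤ h := by omega
        exact_mod_cast this
      nlinarith
    refine e1.trans ?_
    apply mul_le_mul_of_nonneg_left _ (Nat.cast_nonneg F)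
    have : 2 * (h : ℝ) * (N' : ℝ) ^ h / M = (h : ℝ) * (N' : ℝ) ^ h / M + (h : ℝ) * (N' : ℝ) ^ h / M := by
      ring
    rw [this]
    linarith
  have r4 : C ^ k * (δ / 2) ^ h * (N' : ℝ) ^ h ≤ 2 * h * F * (N' : ℝ) ^ h := by
    calc C ^ k * (δ / 2) ^ h * (N' : ℝ) ^ h = C ^ k * (δ / 2 * N') ^ h := by ring
      _ ≤ E.card * ((∏ p ∈ D, (p : ℝ)) ^ h * ∏ _j : Fin h, ((1 : ℕ) : ℝ)) := hD4
      _ = E.card * M := by
          rw [hM]
          push_cast
          simp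
      _ ≤ F * (2 * h * (N' : ℝ) ^ h / M) * M := mul_le_mul_of_nonneg_right r3 hMr.le
      _ = 2 * h * F * (N' : ℝ) ^ h := by
          field_simp
  have r5 := le_of_mul_le_mul_right r4 hNh
  linarith

end Pool.Agent.X6.Dens
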